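import Pool.Agent.Y719.NG.TwInt

/-!
# `f` has an associated abelian variety if and only if `[F : ℚ]` moduli are products of powers

Let `F` be any number field, for example totally real, of degree `d` over `ℚ`.  Let `ρ_t` be finitely
many irreducible `p`-adic representations of `G_F`, for example those of the conjugates `f^t` of a
Hilbert newform `f` of parallel weight `2`, for the embeddings `t` of `K_f`, so that
`∏_t L(ρ_t, s) = ∏_t L(f^t, s)`.  Let `W_j` be finitely many semisimple representations, for example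
`V_p(B_j)` for arbitrary abelian varieties `B_j` over `F`, and let `m_j` be integers of any sign.  Let
`ψ` be one function of absolute value `1` on the places which separates the places above each
prime number.  Suppose that for `0 ≤ i < d` the logarithm of
`∏_t |L(ρ_t ⊗ ψ^i, s)| / ∏_j |L(W_j ⊗ ψ^i, s)| ^ m_j` on the edge of absolute convergence is
concentrated, for example constant on a set of positive upper density.  Then each `ρ_t` is a
subrepresentation of a `W_j` with `m_j > 0`.  For `W_j = V_p(B_j)` it follows with Faltings's theorem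
that `f` has an associated abelian variety.  If `f` has an associated abelian variety `A_f`, then the
hypothesis holds for the single abelian variety `A_f` and `m = 1`.
-/

set_option autoImplicit false

namespace Pool.Agent.Results.MP_e1ffa3_nt.ModuliOfTwists

open NumberField IsDedekindDomain MeasureTheory Filter Topology Polynomial

section
variable {F : Type} [Field F] [NumberField F] {p : ℕ} [Fact p.Prime] {n : ℕ}

/-- `g` is a Frobenius element at `v`: for some maximal ideal `Q` above `v` of the ring of all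
algebraic integers, `g x ≡ x ^ N(v)` modulo `Q` for all `x`. -/
def Frobenius (v : HeightOneSpectrum (𝓞 F)) (g : Gal(AlgebraicClosure F/F)) : Prop :=
  ∃ Q : Ideal (𝓞 (AlgebraicClosure F)), Q.IsMaximal ∧
    Q.comap (algebraMap (𝓞 F) (𝓞 (AlgebraicClosure F))) = v.asIdeal ∧
    ∀ x : 𝓞 (AlgebraicClosure F), g • x - x ^ Ideal.absNorm v.asIdeal ∈ Q

/-- `g` lies in an inertia group at `v`: for some maximal ideal `Q` above `v` of the ring of all
algebraic integers, `g x ≡ x` modulo `Q` for all `x`. -/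
def Inertia (v : HeightOneSpectrum (𝓞 F)) (g : Gal(AlgebraicClosure F/F)) : Prop :=
  ∃ Q : Ideal (𝓞 (AlgebraicClosure F)), Q.IsMaximal ∧
    Q.comap (algebraMap (𝓞 F) (𝓞 (AlgebraicClosure F))) = v.asIdeal ∧
    ∀ x : 𝓞 (AlgebraicClosure F), g • x - x ∈ Q

/-- The matrix of `g`. -/
noncomputable def matrix (ρ : Gal(AlgebraicClosure F/F) →* GL (Fin n) (PadicAlgCl p))
    (g : Gal(AlgebraicClosure F/F)) : Matrix (Fin n) (Fin n) (PadicAlgCl p) :=
  (ρ g : GL (Fin n) (PadicAlgCl p))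

/-- `W` is a stable subspace. -/
def Stable (ρ : Gal(AlgebraicClosure F/F) →* GL (Fin n) (PadicAlgCl p))
    (W : Submodule (PadicAlgCl p) (Fin n → PadicAlgCl p)) : Prop :=
  ∀ g, ∀ x ∈ W, (matrix ρ g).mulVec x ∈ W

/-- `ρ` is irreducible. -/
def Irreducible (ρ : Gal(AlgebraicClosure F/F) →* GL (Fin n) (PadicAlgCl p)) : Prop :=
  0 < n ∧ ∀ W, Stable ρ W → W = ⊥ ∨ W = ⊤

/-- `ρ` is semisimple: every stable subspace has a stable complement. -/
def Semisimple (ρ : Gal(AlgebraicClosure F/F) →* GL (Fin n) (PadicAlgCl p)) : Prop :=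
  ∀ W, Stable ρ W → ∃ W', Stable ρ W' ∧ IsCompl W W'

/-- `v` lies above a prime number in `S`. -/
def Bad (S : Finset ℕ) (v : HeightOneSpectrum (𝓞 F)) : Prop :=
  ∃ q ∈ S, (q : 𝓞 F) ∈ v.asIdeal

/-- `P` is the family of Euler factors of `ρ` away from `S`, and `ρ` has weights at most `w`: `P_v` is
`1` for `v` above `S`; for all other `v` the representation is unramified and `P_v` is
`det(1 - X ρ(g⁻¹))` for the Frobenius elements `g` at `v`, with coefficients mapped to `ℂ` by `ι`;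
the inverse roots of `P_v` are at most `Nv^{w/2}` in absolute value. -/
structure EulerFactors (S : Finset ℕ) (w : ℝ) (ι : PadicAlgCl p →+* ℂ)
    (ρ : Gal(AlgebraicClosure F/F) →* GL (Fin n) (PadicAlgCl p))
    (P : HeightOneSpectrum (𝓞 F) → ℂ[X]) : Prop where
  bad : ∀ v, Bad S v → P v = 1
  unramified : ∀ v, ¬ Bad S v → ∀ g, Inertia v g → ρ g = 1
  frobenius : ∀ v, ¬ Bad S v → ∀ g, Frobenius v g → (matrix ρ g⁻¹).charpolyRev.map ι = P v
  weight : ∀ v, ∀ z : ℂ, (P v).eval z = 0 →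
    (Ideal.absNorm v.asIdeal : ℝ) ^ (-(w / 2)) ≤ ‖z‖

/-- `ψ` separates the places above each prime number, up to the degree `M`. -/
def Separates (ψ : HeightOneSpectrum (𝓞 F) → ℂ) (M : ℕ) : Prop :=
  ∀ v w : HeightOneSpectrum (𝓞 F), v ≠ w → ∀ k l : ℕ, 1 ≤ k → k ≤ M → 1 ≤ l → l ≤ M →
    Ideal.absNorm v.asIdeal ^ k = Ideal.absNorm w.asIdeal ^ l → ψ v ^ k ≠ ψ w ^ l

/-- The Euler product `∏_v P_v(ψ(v)^i Nv^{-s})⁻¹`: the product with the polynomials `P_v`, twisted by
`ψ^i`. -/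
noncomputable def L (P : HeightOneSpectrum (𝓞 F) → ℂ[X]) (ψ : HeightOneSpectrum (𝓞 F) → ℂ) (i : ℕ)
    (s : ℂ) : ℂ :=
  ∏' v : HeightOneSpectrum (𝓞 F),
    ((P v).eval (ψ v ^ i * (Ideal.absNorm v.asIdeal : ℂ) ^ (-s)))⁻¹

/-- The limit of `|L(w/2 + 1 + σ + iτ)|` for `σ → 0`, `σ > 0`. -/
noncomputable def edgeAbs (w : ℝ) (P : HeightOneSpectrum (𝓞 F) → ℂ[X])
    (ψ : HeightOneSpectrum (𝓞 F) → ℂ) (i : ℕ) (τ : ℝ) : ℝ :=
  limUnder (𝓝[>] (0 : ℝ)) fun σ : ℝ =>
    ‖L P ψ i (((w / 2 + 1 : ℝ) : ℂ) + σ + τ * Complex.I)‖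

end

/-- The values of `f` are concentrated: there is `δ > 0` such that for every `ε > 0` there are
arbitrarily large `T` and a real number `x` with `|f - x| < ε` on a subset of `(0, T]` of measure at
least `δ T`. -/
def Concentrated (f : ℝ → ℝ) : Prop :=
  ∃ δ : ℝ, 0 < δ ∧ ∀ ε : ℝ, 0 < ε → ∃ᶠ T : ℝ in atTop, ∃ x : ℝ,
    ENNReal.ofReal (δ * T) ≤ volume {τ | τ ∈ Set.Ioc 0 T ∧ |f τ - x| < ε}

/-- **The moduli of `[F : ℚ]` twists.**  Let `F` be a number field, `ρ_t` (dimension `n_t`) finitely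
many irreducible and `W_j` (dimension `N_j`) finitely many semisimple `p`-adic representations of
`G_F`, with the Euler factors `P_t` and `R_j` of weight at most `w` away from `S`, for example the
representations of the conjugates of a Hilbert newform `f` and the representations `V_p(B_j)` of
abelian varieties `B_j` over `F`, and let `m_j` be integers.  Let `M` be at least
`∑_t n_t + ∑_{m_j < 0} |m_j| N_j` and at least `∑_{m_j > 0} m_j N_j`.  There are functions `ψ` of
absolute value `1` on the places which separate the places up to the degree `M`.  Let `ψ` be such a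
function.  If for `0 ≤ i < [F : ℚ]` the logarithm of
`∏_t |L(ρ_t ⊗ ψ^i, s)| / ∏_j |L(W_j ⊗ ψ^i, s)| ^ m_j` on the line `Re s = w/2 + 1` is concentrated,
then for each `t` there is `j` with `m_j > 0` such that `ρ_t` is a subrepresentation of `W_j`: there is
an injective matrix `H` with `W_j(g) H = H ρ_t(g)` for all `g`. -/
theorem result (F : Type) [Field F] [NumberField F] (p : ℕ) [Fact p.Prime]
    (ι : PadicAlgCl p →+* ℂ) (S : Finset ℕ) (hS : ∀ q ∈ S, q.Prime) (w : ℝ)
    (T κ : Type) [Fintype T] [Fintype κ] (n : T → ℕ) (N : κ → ℕ) (m : κ → ℤ)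
    (ρ : ∀ t, Gal(AlgebraicClosure F/F) →* GL (Fin (n t)) (PadicAlgCl p))
    (W : ∀ j, Gal(AlgebraicClosure F/F) →* GL (Fin (N j)) (PadicAlgCl p))
    (P : T → HeightOneSpectrum (𝓞 F) → ℂ[X]) (R : κ → HeightOneSpectrum (𝓞 F) → ℂ[X])
    (hρ : ∀ t, Continuous (ρ t)) (hirr : ∀ t, Irreducible (ρ t))
    (hP : ∀ t, EulerFactors S w ι (ρ t) (P t)) (hW : ∀ j, Continuous (W j))
    (hss : ∀ j, Semisimple (W j)) (hR : ∀ j, EulerFactors S w ι (W j) (R j))
    (M : ℕ) (hM : ∑ t, n t + ∑ j, (-m j).toNat * N j ≤ M) (hM' : ∑ j, (m j).toNat * N j ≤ M) :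
    (∃ ψ : HeightOneSpectrum (𝓞 F) → ℂ, (∀ v, ‖ψ v‖ = 1) ∧ Separates ψ M) ∧
    ∀ ψ : HeightOneSpectrum (𝓞 F) → ℂ, (∀ v, ‖ψ v‖ ≤ 1) → Separates ψ M →
      (∀ i < Module.finrank ℚ F, Concentrated fun τ => ∑ t, Real.log (edgeAbs w (P t) ψ i τ) -
        ∑ j, m j * Real.log (edgeAbs w (R j) ψ i τ)) →
      ∀ t, ∃ j, 0 < m j ∧ ∃ H : Matrix (Fin (N j)) (Fin (n t)) (PadicAlgCl p),
        (∀ x, H.mulVec x = 0 → x = 0) ∧ ∀ g, matrix (W j) g * H = H * matrix (ρ t) g := by
  classical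
  refine ⟨?_, fun ψ hψ hsep hc t => ?_⟩
  · obtain ⟨ψ, h1, h2⟩ := Pool.Agent.Y719.EL.N.exists_sep (K := F) M
    exact ⟨ψ, h1, fun v w hvw k l hk hkN hl hlN _ => h2 v w hvw k l hk hkN hl hlN⟩
  have hs := Pool.Agent.Y719.EL.N.sep_pow (N := M) (K := F) (ψ := ψ) hsep
  have hnorm : ∀ (i : Fin (Module.finrank ℚ F)) (v : HeightOneSpectrum (𝓞 F)),
      ‖ψ v ^ (i : ℕ)‖ ≤ 1 := fun i v => by
    rw [norm_pow]
    exact pow_le_one₀ (norm_nonneg _) (hψ v)
  have he : ∀ (P : HeightOneSpectrum (𝓞 F) → ℂ[X]) (i : ℕ) (τ : ℝ),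
      Pool.Agent.Y719.EL.N.eA w P (fun v => ψ v ^ i) τ = edgeAbs w P ψ i τ := by
    intro P i τ
    have hL : ∀ s, Pool.Agent.Y719.EL.N.LS P (fun v => ψ v ^ i) s = L P ψ i s := fun s => rfl
    unfold Pool.Agent.Y719.EL.N.eA edgeAbs
    simp_rw [hL]
  have hF : ∀ {N : ℕ} (W : Gal(AlgebraicClosure F/F) →* GL (Fin N) (PadicAlgCl p))
      (R : HeightOneSpectrum (𝓞 F) → ℂ[X]), EulerFactors S w ι W R →
      Pool.Agent.Y719.NG.Fac S w ι W R := fun W R h =>
    ⟨h.bad, fun v hv => ⟨h.unramified v hv, h.frobenius v hv⟩, h.weight⟩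
  -- the other representations of the family
  let n' : κ ⊕ {u : T // u ≠ t} → ℕ := Sum.elim N fun u => n u.1
  let m' : κ ⊕ {u : T // u ≠ t} → ℤ := Sum.elim m fun _ => -1
  let R' : κ ⊕ {u : T // u ≠ t} → HeightOneSpectrum (𝓞 F) → ℂ[X] := Sum.elim R fun u => P u.1
  let W' : ∀ j : κ ⊕ {u : T // u ≠ t},
      Gal(AlgebraicClosure F/F) →* GL (Fin (n' j)) (PadicAlgCl p) := fun j =>
    match j with
    | Sum.inl j => W j
    | Sum.inr u => ρ u.1
  have hc' : ∀ i : Fin (Module.finrank ℚ F), Pool.Agent.Y774.MD.Concentrated fun τ =>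
      Real.log (Pool.Agent.Y719.EL.N.eA w (P t) (fun v => ψ v ^ (i : ℕ)) τ) -
      ∑ j, m' j * Real.log (Pool.Agent.Y719.EL.N.eA w (R' j) (fun v => ψ v ^ (i : ℕ)) τ) := by
    intro i
    simp_rw [he]
    refine cast (congrArg Concentrated ?_) (hc i i.2)
    funext τ
    rw [Fintype.sum_sum_type, Fintype.sum_eq_add_sum_subtype_ne _ t]
    have h1 : ∑ u : {u : T // u ≠ t}, ((m' (Sum.inr u) : ℤ) : ℝ) *
        Real.log (edgeAbs w (R' (Sum.inr u)) ψ i τ) =
        - ∑ u : {u : T // u ≠ t}, Real.log (edgeAbs w (P u.1) ψ i τ) := by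
      rw [← Finset.sum_neg_distrib]
      refine Finset.sum_congr rfl fun u _ => ?_
      change ((-1 : ℤ) : ℝ) * Real.log (edgeAbs w (P u.1) ψ i τ) = _
      push_cast
      ring
    have h2 : ∑ j : κ, ((m' (Sum.inl j) : ℤ) : ℝ) * Real.log (edgeAbs w (R' (Sum.inl j)) ψ i τ) =
        ∑ j, m j * Real.log (edgeAbs w (R j) ψ i τ) := rfl
    rw [h1, h2]
    ring
  have hM₁ : n t + ∑ j, (-m' j).toNat * n' j ≤ M := by
    refine le_trans (le_of_eq ?_) hM
    rw [Fintype.sum_sum_type, Fintype.sum_eq_add_sum_subtype_ne n t]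
    have h1 : ∑ u : {u : T // u ≠ t}, (-m' (Sum.inr u)).toNat * n' (Sum.inr u) =
        ∑ u : {u : T // u ≠ t}, n u.1 := by
      refine Finset.sum_congr rfl fun u _ => ?_
      change (-(-1 : ℤ)).toNat * n u.1 = _
      rw [neg_neg, Int.toNat_one, one_mul]
    have h2 : ∑ j : κ, (-m' (Sum.inl j)).toNat * n' (Sum.inl j) = ∑ j, (-m j).toNat * N j := rfl
    rw [h1, h2]
    ring
  have hM₂ : ∑ j, (m' j).toNat * n' j ≤ M := by
    refine le_trans (le_of_eq ?_) hM'
    rw [Fintype.sum_sum_type]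
    have h1 : ∑ u : {u : T // u ≠ t}, (m' (Sum.inr u)).toNat * n' (Sum.inr u) = 0 := by
      refine Finset.sum_eq_zero fun u _ => ?_
      change ((-1 : ℤ)).toNat * n u.1 = _
      simp
    have h2 : ∑ j : κ, (m' (Sum.inl j)).toNat * n' (Sum.inl j) = ∑ j, (m j).toNat * N j := rfl
    rw [h1, h2, add_zero]
  obtain ⟨j, hj, H, hH0, hH⟩ := Pool.Agent.Y719.NG.twisted_moduli (w := w) (m := m') (P := R')
    (N := n') (n := n') (R := W')
    (hF (ρ t) (P t) (hP t)).typ
    (fun j => match j with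
      | Sum.inl j => (hF (W j) (R j) (hR j)).typ
      | Sum.inr u => (hF (ρ u.1) (P u.1) (hP u.1)).typ) hnorm hM₁ hM₂ hs hc' ι (hρ t) (hirr t)
    (fun j => match j with
      | Sum.inl j => hW j
      | Sum.inr u => hρ u.1)
    (fun j => match j with
      | Sum.inl j => hss j
      | Sum.inr u => Pool.Agent.Y719.NG.Irr.ss (hirr u.1))
    (Pool.Agent.Y719.NG.bad F S) (Pool.Agent.Y719.NG.bad_finite hS)
    (hF (ρ t) (P t) (hP t)).att
    (fun j => match j with
      | Sum.inl j => (hF (W j) (R j) (hR j)).att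
      | Sum.inr u => (hF (ρ u.1) (P u.1) (hP u.1)).att)
  match j, hj, H, hH0, hH with
  | Sum.inl j, hj, H, hH0, hH => exact ⟨j, hj, H, hH0, hH⟩
  | Sum.inr u, hj, _, _, _ =>
    exfalso
    have h1 : (0 : ℤ) < -1 := hj
    omega

end Pool.Agent.Results.MP_e1ffa3_nt.ModuliOfTwists
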